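import Pool.Agent.Y956.CQ.FinI

/-!
# A function of the number of prime factors at a displaced point and arbitrary bounded multiplicative functions
along a dilated tuple
-/

set_option autoImplicit false

namespace Pool.Agent.Results.MP_f3f922_nt.DisplacedOmega

open Finset

/-- multiplicative functions with values in the closed unit disc -/
def IsMult (g : ℕ → ℂ) : Prop :=
  (∀ n, ‖g n‖ ≤ 1) ∧ ∀ m n : ℕ, 1 ≤ m → 1 ≤ n → Nat.Coprime m n → g (m * n) = g m * g n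

/-- the function `a` of the number of prime factors, counted with multiplicity -/
noncomputable def om (a : ℕ → ℂ) (n : ℕ) : ℂ := a (ArithmeticFunction.cardFactors n)

/-- extension by zero of a function of the positive integers to all integers -/
noncomputable def ext (g : ℕ → ℂ) (m : ℤ) : ℂ := if 0 < m then g m.toNat else 0

/-- the average over `1 ≤ n ≤ x` -/
noncomputable def avg (f : ℕ → ℂ) (x : ℕ) : ℂ := (1 / (x : ℂ)) * ∑ n ∈ Icc 1 x, f n

/-- the logarithmic average over the scales `Y < x ≤ W` -/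
noncomputable def scales (φ : ℕ → ℝ) (Y W : ℕ) : ℝ :=
  (1 / Real.log ((W : ℝ) / Y)) * ∑ x ∈ Ioc Y W, (1 / (x : ℝ)) * φ x

/-- the correlation over `n ≤ x` of `om a` at `n + d` and of the functions `g i` at the points `n + h * b i`, minus
the product of the average of `om a` and of the correlation of the functions `g i` -/
noncomputable def dev {k : ℕ} (a : ℕ → ℂ) (g : Fin k → ℕ → ℂ) (b : Fin k → ℤ) (h : ℕ) (d : ℤ) (x : ℕ) : ℝ :=
  ‖avg (fun n => ext (om a) (n + d) * ∏ i, ext (g i) (n + h * b i)) x -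
    avg (om a) x * avg (fun n => ∏ i, ext (g i) (n + h * b i)) x‖

open Classical in
/-- the exceptional pairs `(h, d)` for the scales between `Y` and `W` -/
noncomputable def exc {k : ℕ} (a : ℕ → ℂ) (g : Fin k → ℕ → ℂ) (b : Fin k → ℤ) (ε : ℝ) (S : Finset (ℕ × ℤ))
    (Y W : ℕ) : Finset (ℕ × ℤ) :=
  S.filter (fun e => ε < scales (dev a g b e.1 e.2) Y W)

lemma ext_ext {g : ℕ → ℂ} (hg : ∀ n, ‖g n‖ ≤ 1) : Pool.Agent.Y956.CP.Ext g (ext g) := by
  refine ⟨fun m => ?_, fun m hm => ?_⟩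
  · unfold ext
    split_ifs
    · exact hg _
    · simp
  · unfold ext
    rw [if_pos (by exact_mod_cast hm), Int.toNat_natCast]

theorem result : ∀ (k : ℕ) (ε : ℝ), 0 < ε → ∃ C : ℝ, ∃ H₀ : ℕ, ∀ a : ℕ → ℂ, (∀ l, ‖a l‖ ≤ 1) →
    ∀ g : Fin k → ℕ → ℂ, (∀ i, IsMult (g i)) → ∀ (b : Fin k → ℤ) (S : Finset (ℕ × ℤ)), (∀ e ∈ S, 1 ≤ e.1) →
    (∀ e ∈ S, ∀ e' ∈ S, e ≠ e' → e.2 * (e'.1 : ℤ) ≠ e'.2 * (e.1 : ℤ)) →
    ∃ ω₀ : ℕ, ∀ Y W : ℕ, 1 ≤ Y → ω₀ * Y ≤ W →
      ∑ e ∈ exc a g b ε S Y W, 1 / (e.1 : ℝ) ≤ C ∧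
      ∀ H : ℕ, H₀ ≤ H → (((exc a g b ε S Y W).filter (fun e => e.1 ≤ H)).card : ℝ) ≤ ε * H := by
  classical
  intro k ε hε
  obtain ⟨C, _, H₀, _, h⟩ := Pool.Agent.Y956.CQ.fin_omegaI k ε hε
  refine ⟨C, H₀, fun a ha g hg b S hS1 hS2 => ?_⟩
  obtain ⟨ω₀, h1⟩ := h a ha g hg (fun _ _ => 1) (fun _ _ => by simp) (ext (om a)) (fun i => ext (g i))
    (ext_ext (g := om a) (fun _ => ha _)) (fun i => by
      have h2 := ext_ext (hg i).1
      exact ⟨h2.b, fun m hm => by rw [h2.e m hm, mul_one]⟩) S ⟨hS1, hS2⟩ b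
  refine ⟨ω₀, fun Y W hY hW => ?_⟩
  have h2 := h1 Y W hY hW
  have e : S.filter (fun e => ε < Pool.Agent.Y956.CB.WA
      (Pool.Agent.Y956.CQ.gp (fun n => a (ArithmeticFunction.cardFactors n)) (ext (om a)) (fun i => ext (g i)) e.2
        (fun j => e.1 * b j)) Y W) = exc a g b ε S Y W := rfl
  rw [e] at h2
  exact h2

end Pool.Agent.Results.MP_f3f922_nt.DisplacedOmega
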