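import Pool.Agent.Y885.KP6

/-!
# Correlations of all orders of the Liouville function, with an arbitrary further factor; the shifts are random sums
with up to two fifths of the scales missing
-/

set_option autoImplicit false

namespace Pool.Agent.Results.MP_f3f922_nt.RandomSumShifts

open Finset

/-- The Liouville function on the integers, `0` at the integers `m ≤ 0`, with complex values. -/
noncomputable def lam (m : ℤ) : ℂ := if 1 ≤ m then (-1 : ℂ) ^ ArithmeticFunction.cardFactors m.toNat else 0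

/-- The set `J` of scales below `k` is rich: it contains more than three fifths of all the scales, more than one half
of the `m` lowest scales, and a positive proportion of the `m` highest scales (the last two conditions are
void for `m ≤ D log k`). -/
structure Rich (δ : ℝ) (D k : ℕ) (J : Finset ℕ) : Prop where
  lt : ∀ j ∈ J, j < k
  all : (3 / 5 + δ) * k ≤ (J.card : ℝ)
  low : ∀ m ≤ k, (1 / 2 + δ) * m ≤ ((J.filter fun j => j < m).card : ℝ) + D * Real.log k
  high : ∀ m ≤ k, δ * m ≤ ((J.filter fun j => k - m ≤ j).card : ℝ) + D * Real.log k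

open Classical in
/-- The probability of the event `Ev` if the `x i j`, for `i < s` and `j < k`, are independent random integers, where
`x i j` takes its values in the finite set `σ i j`, and the value `v` with the probability `p i j v`. -/
noncomputable def Prob (s k : ℕ) (σ : Fin s → ℕ → Finset ℤ) (p : Fin s → ℕ → ℤ → ℝ) (Ev : (Fin s → Fin k → ℤ) → Prop) : ℝ :=
  ∑ x ∈ Fintype.piFinset (fun i : Fin s => Fintype.piFinset (fun j : Fin k => σ i j)),
    if Ev x then ∏ i, ∏ j : Fin k, p i j (x i j) else 0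

/-- Let `b ≥ 2`, `B ≥ 1`, `D`, `κ`, `U`, `η > 0` and `δ > 0` be fixed, let `k` be large, `2 ^ s ≤ k ^ κ`, and let
`J 1, ..., J s` be arbitrary rich sets of scales below `k`. Let the `x i j` (`i < s`, `j < k`) be arbitrary independent
random integers with `|x i j| ≤ B b ^ j` such that, for all `j` in `J i`, no interval of the length `b ^ j / B` contains
`x i j` with a probability larger than `1 - η` (nothing is assumed for the other `j`: these `x i j` may be constants).
Let `|c i| ≤ B b ^ k` be arbitrary integers, and let `G l`, where `l` ranges over at most `k ^ κ` indices, be arbitrary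
functions bounded by `1` (for example products `f 1 (n + h 1) ⋯ f r (n + h r)` of arbitrary bounded multiplicative
functions, with arbitrary `r` and arbitrary shifts). Then, with a probability of at least `1 - 1 / k ^ U`, the
integers `a i = c i + ∑ j, x i j` satisfy `|∑ n ≤ N, G l (n) ∏ i ∈ I, λ(n + a i)| ≤ b ^ k / k ^ U` for all `l`, all nonempty
sets `I` of indices and all `N ≤ B b ^ k`. -/
theorem result (b B D κ U : ℕ) (hb : 2 ≤ b) (hB : 1 ≤ B) (η δ : ℝ) (hη : 0 < η) (hδ : 0 < δ) :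
    ∃ k₀ : ℕ, ∀ k : ℕ, k₀ ≤ k → ∀ s : ℕ, 2 ^ s ≤ k ^ κ → ∀ J : Fin s → Finset ℕ, (∀ i, Rich δ D k (J i)) →
      ∀ (σ : Fin s → ℕ → Finset ℤ) (p : Fin s → ℕ → ℤ → ℝ),
      (∀ i, ∀ j < k, (∀ x ∈ σ i j, 0 ≤ p i j x ∧ |x| ≤ (B : ℤ) * (b : ℤ) ^ j) ∧ ∑ x ∈ σ i j, p i j x = 1) →
      (∀ i, ∀ j ∈ J i, ∀ y : ℤ, ∑ x ∈ (σ i j).filter (fun x => y ≤ x ∧ (B : ℤ) * (x - y) ≤ (b : ℤ) ^ j), p i j x ≤ 1 - η) →
      ∀ c : Fin s → ℤ, (∀ i, |c i| ≤ (B : ℤ) * (b : ℤ) ^ k) →
      ∀ L : ℕ, L ≤ k ^ κ → ∀ G : Fin L → ℕ → ℂ, (∀ l n, ‖G l n‖ ≤ 1) →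
        Prob s k σ p (fun x => ¬ ∀ l, ∀ I : Finset (Fin s), I.Nonempty → ∀ N : ℕ, N ≤ B * b ^ k →
          ‖∑ n ∈ Icc 1 N, G l n * ∏ i ∈ I, lam (n + (c i + ∑ j, x i j))‖ ≤ (b : ℝ) ^ k / (k : ℝ) ^ U) ≤
          1 / (k : ℝ) ^ U := by
  classical
  obtain ⟨k₀, h0⟩ := Pool.Agent.Y885.rs_kpt b B D κ U hb hB η δ hη hδ Pool.Agent.Y885.laR Pool.Agent.Y885.fine_lam
  refine ⟨k₀ + 1, fun k hk s hs J hJ σ p hσ hp c hc L hL G hG => ?_⟩
  have hk1 : (1 : ℝ) ≤ (k : ℝ) ^ κ := one_le_pow₀ (by exact_mod_cast (by omega : 1 ≤ k))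
  have h1 := h0 k (by omega) s hs J σ p c (fun i => ⟨(hJ i).lt, (hJ i).low, (hJ i).high, (hJ i).all⟩) hσ hp hc L hL (fun _ => 1)
    G (fun _ => le_rfl) (fun l n _ _ => (hG l n).trans hk1)
    (fun x => ¬ ∀ l, ∀ I : Finset (Fin s), I.Nonempty → ∀ N : ℕ, N ≤ B * b ^ k →
          ‖∑ n ∈ Icc 1 N, G l n * ∏ i ∈ I, lam (n + (c i + ∑ j, x i j))‖ ≤ (b : ℝ) ^ k / (k : ℝ) ^ U)
    (Classical.decPred _) (fun x hx hall => hx fun l I hI N hN => by
      refine le_trans (le_of_eq ?_) (hall l I hI N (fun i _ => by rw [one_mul]; exact hN))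
      congr 1
      apply sum_congr rfl
      intro n _
      congr 1
      apply prod_congr rfl
      intro i _
      rw [one_mul]
      unfold Pool.Agent.H373R2.T7.exI lam Pool.Agent.Y885.laR
      split_ifs
      · push_cast
        rfl
      · rfl)
  refine le_trans (le_of_eq ?_) h1
  unfold Prob
  apply sum_congr rfl
  intro x _
  split_ifs <;> rfl

end Pool.Agent.Results.MP_f3f922_nt.RandomSumShifts
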