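import Pool.Agent.Y958.E.FinU

/-!
# The asymptotic form of Elliott's conjecture: a uniform gap in windows of scales when one factor is near a
twisted Liouville function and the others are arbitrary
-/

set_option autoImplicit false

namespace Pool.Agent.Results.MP_f3f922_nt.UniformGapWindows

open Finset

/-- `1`-bounded multiplicative functions on the positive integers -/
def IsMult (g : ℕ → ℂ) : Prop :=
  (∀ n, ‖g n‖ ≤ 1) ∧ ∀ m n : ℕ, 1 ≤ m → 1 ≤ n → Nat.Coprime m n → g (m * n) = g m * g n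

/-- `λ(n) χ(n) n ^ (i t)` for the Liouville function `λ`, a Dirichlet character `χ` and a real `t` -/
noncomputable def twist {q : ℕ} (χ : DirichletCharacter ℂ q) (t : ℝ) (n : ℕ) : ℂ :=
  (-1) ^ ArithmeticFunction.cardFactors n * χ (n : ZMod q) *
    Complex.exp (((t * Real.log n : ℝ) : ℂ) * Complex.I)

/-- for some character `χ` of modulus at most `A` and some `|t| ≤ T`, the square of the pretentious
distance from `f` to `λ(n) χ(n) n ^ (i t)` over the primes in `(A, x]` is at most `δ` -/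
def NearTwist (A : ℕ) (T δ : ℝ) (x : ℕ) (f : ℕ → ℂ) : Prop :=
  ∃ (q : ℕ) (χ : DirichletCharacter ℂ q) (t : ℝ), 1 ≤ q ∧ q ≤ A ∧ |t| ≤ T ∧
    ∑ p ∈ (Ioc A x).filter Nat.Prime, (1 - (f p * (starRingEnd ℂ) (twist χ t p)).re) / (p : ℝ) ≤ δ

/-- the correlation sum of `f 0, ..., f k` with shifts `h 0, ..., h k` up to `N` -/
noncomputable def corr {k : ℕ} (h : Fin (k + 1) → ℕ) (f : Fin (k + 1) → ℕ → ℂ) (N : ℕ) : ℂ :=
  ∑ n ∈ Icc 1 N, ∏ i, f i (n + h i)

open Classical in
/-- There are `c k > 0` depending on `k` only such that for all distinct shifts `h`, all `A` and all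
`η > 0`, once `x / y` is large in terms of `k, h, A, η` only, uniformly over all `1`-bounded multiplicative
functions `f 0, ..., f k` such that `f 0` is near `λ(n) χ(n) n ^ (i t)` with conductor at most `A` and
`|t| ≤ A y`: the correlation sum up to `N` is at most `(1 - c k) N` for all `N` in `(y, x]` outside a set of
relative logarithmic density at most `η`, and the logarithmic average of the correlation over the window
`(y, x]` is at most `1 - c k`. -/
theorem result : ∃ c : ℕ → ℝ, (∀ k, 0 < c k) ∧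
    ∀ (k : ℕ) (h : Fin (k + 1) → ℕ), Function.Injective h → ∀ (A : ℕ) (η : ℝ), 0 < η →
    ∃ ω : ℕ, ∀ y x : ℕ, 1 ≤ y → ω * y ≤ x →
      ∀ f : Fin (k + 1) → ℕ → ℂ, (∀ i, IsMult (f i)) → NearTwist A (A * y) (c k) x (f 0) →
      ∑ N ∈ Ioc y x, (if (1 - c k) * (N : ℝ) < ‖corr h f N‖ then (1 : ℝ) / N else 0) ≤
        η * Real.log ((x : ℝ) / y) ∧
      ‖∑ n ∈ Ioc y x, (∏ i, f i (n + h i)) / n‖ ≤ (1 - c k) * Real.log ((x : ℝ) / y) := by
  obtain ⟨c, hc0, h⟩ := Pool.Agent.Y958.E.finU
  refine ⟨c, hc0, fun k h' hinj A η hη => ?_⟩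
  obtain ⟨ω, hω⟩ := h k h' hinj A η hη
  refine ⟨ω, fun y x hy hx f hf hnear => ?_⟩
  have h1 := hω y x hy hx f hf hnear
  refine ⟨?_, h1.2⟩
  refine le_trans (le_of_eq ?_) h1.1
  apply sum_congr rfl
  intro N _
  unfold corr
  split_ifs <;> rfl

end Pool.Agent.Results.MP_f3f922_nt.UniformGapWindows
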