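import Pool.Agent.Y842.QY.Ell2

/-!
# Elliott's conjecture for `z ^ Ω(n)` and an arbitrary multiplicative function, uniformly (helper842)

The asymptotic form of Elliott's conjecture (MP_f3f922_nt) asks for bounds that are uniform in all the
multiplicative functions. We prove, for `f₁` the product of `z ^ Ω(n)` (`|z| ≤ 1`, `|z - 1| ≥ δ`; `z = -1` is the
Liouville function) or `μ(n)` and any periodic function of period at most `Q`, and ARBITRARY `1`-bounded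
multiplicative `g`, bounds for the sums of `f₁(n + a) g(n + c) e(α n)` that are uniform in `g`, `f₁`, in all real `α`
and all partial sums, for most scales `N ≤ X` (in logarithmic measure); `f₁`, `g` may depend on `X`, `α` and the
partial sum on `N`.
-/

set_option autoImplicit false

open Finset

namespace Pool.Agent.Results.MP_f3f922_nt.UniformPair

/-- `Ω(n)`, the number of prime factors counted with multiplicity -/
def Om (n : ℕ) : ℕ := ArithmeticFunction.cardFactors n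

/-- `e(x) = exp(2 π i x)` -/
noncomputable def e (x : ℝ) : ℂ := Complex.exp (2 * Real.pi * x * Complex.I)

/-- `g` is multiplicative with values in the unit disc (on the positive integers) -/
def Mult (g : ℕ → ℂ) : Prop := (∀ n, 1 ≤ n → ‖g n‖ ≤ 1) ∧
  ∀ m n : ℕ, 1 ≤ m → 1 ≤ n → Nat.Coprime m n → g (m * n) = g m * g n

/-- `f(n) = z ^ Ω(n) κ(n)` with `|z| ≤ 1`, `|z - 1| ≥ δ`, or `f = μ κ`, with a function `κ` bounded by `1` and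
periodic with period `q ≤ Q` -/
def OmegaType (δ : ℝ) (Q : ℕ) (f : ℕ → ℂ) : Prop := ∃ (q : ℕ) (κ : ℕ → ℂ), 1 ≤ q ∧ q ≤ Q ∧ (∀ n, ‖κ n‖ ≤ 1) ∧
  (∀ n, κ (n + q) = κ n) ∧
  ((∃ z : ℂ, ‖z‖ ≤ 1 ∧ δ ≤ ‖z - 1‖ ∧ ∀ n, f n = z ^ Om n * κ n) ∨
    (∀ n, f n = (ArithmeticFunction.moebius n : ℂ) * κ n))

/-- **Theorem.** Let `a ≠ c` be shifts, `Q` a bound for the period, `δ, ε > 0`. There is `X₀` such that for all
`X ≥ X₀`, all `f` of type `z ^ Ω(n)`, `|z - 1| ≥ δ`, or `μ`, times a periodic function of period at most `Q`, and ALL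
multiplicative `g` with values in the disc:
* for all real `α_N` and all `y_N ≤ N`:
  `∑_{N ≤ X} (1/N) · (1/N) |∑_{n ≤ y_N} f(n + a) g(n + c) e(α_N n)| ≤ ε log X`;
* for ALL sequences `G_N` bounded by `1` (for instance products of any further factors):
  `∑_{N ≤ X} (1/N) · (1/N) ∑_{s < N} (1/N) |∑_{n ≤ N} G_N(n) f(n + s + a) g(n + s + c)| ≤ ε log X`. -/
theorem result (a c : ℕ) (hac : a ≠ c) (Q : ℕ) (δ : ℝ) (hδ : 0 < δ) (ε : ℝ) (hε : 0 < ε) :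
    ∃ X₀ : ℕ, ∀ X : ℕ, X₀ ≤ X → ∀ f : ℕ → ℂ, OmegaType δ Q f → ∀ g : ℕ → ℂ, Mult g →
      (∀ (α : ℕ → ℝ) (y : ℕ → ℕ), (∀ N, y N ≤ N) →
        ∑ N ∈ Icc 1 X, ‖∑ n ∈ Icc 1 (y N), f (n + a) * g (n + c) * e (α N * n)‖ / (N : ℝ) ^ 2 ≤
          ε * Real.log X) ∧
      (∀ G : ℕ → ℕ → ℂ, (∀ N n, ‖G N n‖ ≤ 1) →
        ∑ N ∈ Icc 1 X, (∑ s ∈ range N, ‖∑ n ∈ Icc 1 N, G N n * (f (n + s + a) * g (n + s + c))‖) /
          (N : ℝ) ^ 3 ≤ ε * Real.log X) := by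
  have hm : ∀ n, ‖((Pool.Agent.TH823.MRS.mob n : ℤ) : ℂ)‖ ≤ 1 :=
    Pool.Agent.Y842.PH.norm_F _ Pool.Agent.TH823.MRS.mob_bdd
  have hμ : Pool.Agent.Y842.QY.PB (fun f => f = fun n => ((Pool.Agent.TH823.MRS.mob n : ℤ) : ℂ)) a c := by
    intro ε' hε'
    obtain ⟨X₀, h⟩ := Pool.Agent.Y842.PG.pair_bd _ hm Pool.Agent.TH823.MRS.expo_mob
      (Pool.Agent.Y842.PG.flip_Flp _ Pool.Agent.TH823.MRS.mob_flip) a c hac ε' hε'
    refine ⟨X₀, fun X hX f₀ hf₀ g hg hgm y hy => ?_⟩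
    subst hf₀
    exact h X hX g hg hgm y hy
  have hz := Pool.Agent.Y842.QY.PB_tw _ a c (Pool.Agent.Y842.QY.PB_Zc a c hac δ hδ) Q
  have hμ' := Pool.Agent.Y842.QY.PB_tw _ a c hμ Q
  obtain ⟨X₁, h1⟩ := hz ε hε
  obtain ⟨X₂, h2⟩ := hμ' ε hε
  obtain ⟨X₃, h3⟩ := Pool.Agent.Y842.QY.PB_ord _ a c hz ε hε
  obtain ⟨X₄, h4⟩ := Pool.Agent.Y842.QY.PB_ord _ a c hμ' ε hε
  refine ⟨X₁ + X₂ + X₃ + X₄, fun X hX f hf g hg => ?_⟩
  obtain ⟨q, κ, hq1, hqQ, hκ1, hκq, hfκ⟩ := hf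
  have key : (∀ y : ℕ → ℕ, (∀ N, y N ≤ N) →
      ∃ B : ℕ → ℝ, (∀ N (α : ℝ), ‖∑ n ∈ Icc 1 (y N), f (n + a) * g (n + c) *
        Pool.Agent.Helper602.MK.ee (α * n)‖ ≤ B N) ∧
        ∑ N ∈ Icc 1 X, B N / (N : ℝ) ^ 2 ≤ ε * Real.log X) ∧
      (∀ G : ℕ → ℕ → ℂ, (∀ N n, ‖G N n‖ ≤ 1) →
        ∑ N ∈ Icc 1 X, (∑ s ∈ range N, ‖∑ n ∈ Icc 1 N, G N n * (f (n + s + a) * g (n + s + c))‖) /
          (N : ℝ) ^ 3 ≤ ε * Real.log X) := by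
    rcases hfκ with ⟨z, hz1, hz2, h⟩ | h
    · have hf : ∃ f₀, Pool.Agent.Y842.QY.Zc δ f₀ ∧ Pool.Agent.Y842.PG.Tw f₀ Q f :=
        ⟨_, ⟨z, hz1, hz2, rfl⟩, q, κ, hq1, hqQ, hκ1, hκq, h⟩
      exact ⟨h1 X (by omega) f hf g hg.1 hg.2, h3 X (by omega) f hf g hg.1 hg.2⟩
    · have hf : ∃ f₀, (f₀ = fun n => ((Pool.Agent.TH823.MRS.mob n : ℤ) : ℂ)) ∧ Pool.Agent.Y842.PG.Tw f₀ Q f :=
        ⟨_, rfl, q, κ, hq1, hqQ, hκ1, hκq, h⟩
      exact ⟨h2 X (by omega) f hf g hg.1 hg.2, h4 X (by omega) f hf g hg.1 hg.2⟩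
  refine ⟨fun α y hy => ?_, key.2⟩
  obtain ⟨B, hB1, hB2⟩ := key.1 y hy
  refine le_trans (sum_le_sum fun N _ => ?_) hB2
  exact div_le_div_of_nonneg_right (hB1 N (α N)) (by positivity)

end Pool.Agent.Results.MP_f3f922_nt.UniformPair
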